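import Pool.Agent.H75.RW.Targets

/-!
# Rows AS1, AS2, AS3 of rwd_modules: the numbers
-/

set_option autoImplicit false

open List Pool.Agent.H68.TG Pool.Agent.H75.RW

namespace Pool.Agent.H66.RW

private theorem large (N : ℕ) (hN : ⌈Real.exp (10 ^ 12)⌉₊ ≤ N) :
    10 ^ 12 ≤ Real.log N ∧ (N : ℝ) = Real.exp (Real.log N) := by
  have h1 : Real.exp (10 ^ 12) ≤ N := (Nat.le_ceil _).trans (by exact_mod_cast hN)
  have h0 : (0 : ℝ) < N := (Real.exp_pos _).trans_le h1
  exact ⟨(Real.le_log_iff_exp_le h0).2 h1, (Real.exp_log h0).symm⟩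

private theorem TT_le (N : ℕ) (hL : 10 ^ 12 ≤ Real.log N) : (TT N : ℝ) ≤ Real.log N / 3 :=
  Nat.floor_le (by linarith)

private theorem TT_ge (N : ℕ) : Real.log N / 3 - 1 ≤ TT N := by
  have h := Nat.lt_floor_add_one (Real.log N / 3)
  unfold TT
  linarith

private theorem quad (a x : ℝ) (ha : 0 < a) (hx : 2 * a ^ 2 ≤ x) (hx0 : 0 ≤ x) (c : ℝ)
    (hc : 2 * a ^ 2 * c ≤ x) : c * x ≤ Real.exp (x / a) := by
  have h1 := Real.quadratic_le_exp_of_nonneg (div_nonneg hx0 ha.le)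
  have h2 : 0 ≤ x / a := div_nonneg hx0 ha.le
  have h3 : c * x ≤ (x / a) ^ 2 / 2 := by
    rw [div_pow, div_div, le_div_iff₀ (by positivity)]
    nlinarith
  linarith

private theorem pw (b c : ℝ) (hb0 : 0 ≤ b) (hb : b ≤ Real.exp c) (hc : 0 ≤ c) (n : ℕ) (x : ℝ)
    (hn : (n : ℝ) ≤ x) : b ^ n ≤ Real.exp (c * x) := by
  calc b ^ n ≤ (Real.exp c) ^ n := pow_le_pow_left₀ hb0 hb n
    _ = Real.exp (n * c) := by rw [← Real.exp_nat_mul]
    _ ≤ Real.exp (c * x) := Real.exp_le_exp.2 (by nlinarith)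

theorem pf_AS1 : T_AS1 := by
  refine ⟨⌈Real.exp (10 ^ 12)⌉₊, fun N hN => ?_⟩
  obtain ⟨hL, hNL⟩ := large N hN
  have hT := TT_le N hL
  have hT' := TT_ge N
  set L := Real.log N with hLd
  have hN10 : (10 : ℝ) ≤ N := by
    rw [hNL]
    have := Real.add_one_le_exp L
    linarith
  have hN10' : 10 ≤ N := by exact_mod_cast hN10
  have hTL : (TT N : ℝ) + 1 ≤ L := by linarith
  have h92 : (9 / 2 : ℝ) ^ TT N ≤ Real.exp (2 * (L / 3)) := by
    refine pw _ _ (by norm_num) ?_ (by norm_num) _ _ hT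
    have h := Real.exp_one_gt_d9
    have h2 : Real.exp 2 = Real.exp 1 * Real.exp 1 := by rw [← Real.exp_add]; norm_num
    rw [h2]
    nlinarith
  have h45 : (9 / 2 : ℝ) ^ TT N * (5 / 4) ^ TT N ≤ Real.exp (7 / 4 * (L / 3)) := by
    rw [← mul_pow]
    refine pw _ _ (by norm_num) ?_ (by norm_num) _ _ hT
    have h := Real.exp_one_gt_d9
    have h7 : Real.exp (7 / 4) ^ 4 = Real.exp 1 ^ 7 := by
      rw [← Real.exp_nat_mul, ← Real.exp_nat_mul]
      norm_num
    have h8 : ((9 / 2 : ℝ) * (5 / 4)) ^ 4 ≤ Real.exp (7 / 4) ^ 4 := by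
      rw [h7]
      calc ((9 / 2 : ℝ) * (5 / 4)) ^ 4 ≤ 2.7182818283 ^ 7 := by norm_num
        _ ≤ Real.exp 1 ^ 7 := pow_le_pow_left₀ (by norm_num) h.le 7
    exact le_of_pow_le_pow_left₀ (by norm_num) (Real.exp_pos _).le h8
  refine ⟨?_, ?_, ?_⟩
  · have : (2 : ℝ) ≤ TT N := by linarith
    exact_mod_cast this
  · have h1 : (N : ℝ) / 5 ≤ (((N + 1) / 2 / 2 : ℕ) : ℝ) := by
      have h2 : N ≤ 5 * ((N + 1) / 2 / 2) := by omega
      have h3 : (N : ℝ) ≤ 5 * (((N + 1) / 2 / 2 : ℕ) : ℝ) := by exact_mod_cast h2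
      linarith
    refine le_trans ?_ h1
    have h2 : 30000 * L ≤ Real.exp (L / 3) :=
      quad 3 L (by norm_num) (by linarith) (by linarith) _ (by linarith)
    have h3 : (N : ℝ) = Real.exp (2 * (L / 3)) * Real.exp (L / 3) := by
      rw [← Real.exp_add, hNL]
      congr 1
      ring
    have h4 : 6000 * (9 / 2 : ℝ) ^ TT N * (TT N + 1) ≤ 6000 * Real.exp (2 * (L / 3)) * L := by
      have h5 : (0 : ℝ) ≤ (TT N : ℝ) + 1 := by positivity
      have h6 : (0 : ℝ) < Real.exp (2 * (L / 3)) := Real.exp_pos _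
      exact mul_le_mul (by linarith) hTL h5 (by positivity)
    refine h4.trans ?_
    rw [h3, le_div_iff₀ (by norm_num : (0 : ℝ) < 5)]
    have h6 : (0 : ℝ) < Real.exp (2 * (L / 3)) := Real.exp_pos _
    nlinarith
  · have h9 : (N : ℝ) ^ (9 / 10 : ℝ) = Real.exp (9 / 10 * L) := by
      rw [hNL, ← Real.exp_mul]
      congr 1
      ring
    have h5 : (N : ℝ) ^ (-(1 / 5) : ℝ) = Real.exp (-(1 / 5) * L) := by
      rw [hNL, ← Real.exp_mul]
      congr 1
      ring
    have h1 : (((N + 1) / 2 : ℕ) : ℝ) ≤ N := by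
      have h2 : (N + 1) / 2 ≤ N := by omega
      exact_mod_cast h2
    have h10 : (Real.exp (9 / 10 * L) / 2) ^ 2 = Real.exp (9 / 5 * L) / 4 := by
      rw [div_pow, ← Real.exp_nat_mul]
      norm_num
      ring
    rw [h9, h5, h10]
    have h2 : 8 * 10 ^ 7 * L ≤ Real.exp (L / 60) :=
      quad 60 L (by norm_num) (by linarith) (by linarith) _ (by linarith)
    have hE : (0 : ℝ) < Real.exp (9 / 5 * L) := Real.exp_pos _
    have h11 : 10 ^ 7 * (9 / 2 : ℝ) ^ TT N * (5 / 4) ^ TT N * (((N + 1) / 2 : ℕ) : ℝ) ≤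
        10 ^ 7 * Real.exp (7 / 4 * (L / 3)) * N := by
      rw [mul_assoc (10 ^ 7 : ℝ) ((9 / 2) ^ TT N)]
      refine mul_le_mul ?_ h1 (by positivity) (by positivity)
      exact mul_le_mul_of_nonneg_left h45 (by norm_num)
    have h12 : 10 ^ 7 * (9 / 2 : ℝ) ^ TT N * (5 / 4) ^ TT N * (((N + 1) / 2 : ℕ) : ℝ) /
        (Real.exp (9 / 5 * L) / 4) ≤
        4 * 10 ^ 7 * Real.exp (-(13 / 60) * L) := by
      rw [div_le_iff₀ (by positivity)]
      refine h11.trans (le_of_eq ?_)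
      have h13 : Real.exp (7 / 4 * (L / 3)) * (N : ℝ) =
          Real.exp (-(13 / 60) * L) * Real.exp (9 / 5 * L) := by
        rw [hNL]
        rw [← Real.exp_add, ← Real.exp_add]
        congr 1
        ring
      calc 10 ^ 7 * Real.exp (7 / 4 * (L / 3)) * (N : ℝ)
          = 10 ^ 7 * (Real.exp (7 / 4 * (L / 3)) * (N : ℝ)) := by ring
        _ = _ := by rw [h13]; ring
    have h14 : (0 : ℝ) < Real.exp (-(13 / 60) * L) := Real.exp_pos _
    calc ((TT N : ℝ) + 1) * (2 * (10 ^ 7 * (9 / 2 : ℝ) ^ TT N * (5 / 4) ^ TT N *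
          (((N + 1) / 2 : ℕ) : ℝ) / (Real.exp (9 / 5 * L) / 4)))
        ≤ L * (2 * (4 * 10 ^ 7 * Real.exp (-(13 / 60) * L))) := by
          refine mul_le_mul hTL ?_ (by positivity) (by linarith)
          linarith
      _ = (8 * 10 ^ 7 * L) * Real.exp (-(13 / 60) * L) := by ring
      _ ≤ Real.exp (L / 60) * Real.exp (-(13 / 60) * L) :=
          mul_le_mul_of_nonneg_right h2 h14.le
      _ = Real.exp (-(1 / 5) * L) := by
          rw [← Real.exp_add]
          congr 1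
          ring

theorem pf_AS2 : T_AS2 := by
  refine ⟨⌈Real.exp (10 ^ 12)⌉₊, fun N hN => ?_⟩
  obtain ⟨hL, hNL⟩ := large N hN
  have hT := TT_le N hL
  have hT' := TT_ge N
  set L := Real.log N with hLd
  have hN10 : (10 : ℝ) ≤ N := by
    rw [hNL]
    have := Real.add_one_le_exp L
    linarith
  have hN10' : 10 ≤ N := by exact_mod_cast hN10
  have h9 : (N : ℝ) ^ (9 / 10 : ℝ) = Real.exp (9 / 10 * L) := by
    rw [hNL, ← Real.exp_mul]
    congr 1
    ring
  have hE9 : (0 : ℝ) < Real.exp (9 / 10 * L) := Real.exp_pos _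
  have hE9' : 100 ≤ Real.exp (9 / 10 * L) := by
    have := Real.add_one_le_exp (9 / 10 * L)
    linarith
  have hN9 : 100 * Real.exp (9 / 10 * L) ≤ N := by
    have h1 : (N : ℝ) = Real.exp (9 / 10 * L) * Real.exp (1 / 10 * L) := by
      rw [← Real.exp_add, hNL]
      congr 1
      ring
    have h2 : 100 ≤ Real.exp (1 / 10 * L) := by
      have := Real.add_one_le_exp (1 / 10 * L)
      linarith
    rw [h1]
    nlinarith
  rw [h9]
  refine ⟨fun i hi => ?_, ?_, hE9', by linarith⟩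
  · have hiL : (i : ℝ) ≤ L / 3 := le_trans (by exact_mod_cast hi) hT
    have h1 : (59 / 60 : ℝ) ^ i ≤ Real.exp (-(i : ℝ) / 60) := by
      have h2 : (59 / 60 : ℝ) ≤ Real.exp (-(1 / 60)) := by
        have := Real.add_one_le_exp (-(1 / 60 : ℝ))
        linarith
      calc (59 / 60 : ℝ) ^ i ≤ Real.exp (-(1 / 60)) ^ i := pow_le_pow_left₀ (by norm_num) h2 i
        _ = Real.exp (-(i : ℝ) / 60) := by
          rw [← Real.exp_nat_mul]
          congr 1
          ring
    have h3 : (((N + 1) / 2 : ℕ) : ℝ) ≤ ((N : ℝ) + 1) / 2 := by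
      have h4 : 2 * ((N + 1) / 2) ≤ N + 1 := by omega
      have h5 : 2 * (((N + 1) / 2 : ℕ) : ℝ) ≤ (N : ℝ) + 1 := by exact_mod_cast h4
      linarith
    have he1 : Real.exp (-(i : ℝ) / 60) ≤ 1 := by
      rw [Real.exp_le_one_iff]
      have : (0 : ℝ) ≤ i := Nat.cast_nonneg i
      linarith
    have he0 : 0 < Real.exp (-(i : ℝ) / 60) := Real.exp_pos _
    have he2 : Real.exp (-L / 180) ≤ Real.exp (-(i : ℝ) / 60) :=
      Real.exp_le_exp.2 (by linarith)
    have h6 : 10 * Real.exp (9 / 10 * L) ≤ N * Real.exp (-(i : ℝ) / 60) := by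
      have h7 : (N : ℝ) * Real.exp (-L / 180) ≤ N * Real.exp (-(i : ℝ) / 60) :=
        mul_le_mul_of_nonneg_left he2 (by linarith)
      refine le_trans ?_ h7
      have h8 : (N : ℝ) * Real.exp (-L / 180) =
          Real.exp (9 / 10 * L) * Real.exp (17 / 180 * L) := by
        nth_rewrite 1 [hNL]
        rw [← Real.exp_add, ← Real.exp_add]
        congr 1
        ring
      rw [h8]
      have h10 : 10 ≤ Real.exp (17 / 180 * L) := by
        have := Real.add_one_le_exp (17 / 180 * L)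
        linarith
      nlinarith
    have h11 : 1.38 * (59 / 60 : ℝ) ^ i * (((N + 1) / 2 : ℕ) : ℝ) ≤
        1.38 * Real.exp (-(i : ℝ) / 60) * (((N : ℝ) + 1) / 2) := by
      refine mul_le_mul ?_ h3 (by positivity) (by positivity)
      linarith
    nlinarith
  · have hNpos : (0 : ℝ) < N := by linarith
    have h1 : 0.49 * (N : ℝ) ≤ N / 2 - Real.exp (9 / 10 * L) := by linarith
    have h2 : 0.33 * L ≤ TT N := by linarith
    have h3 : 0.33 * L * (0.49 * N) ≤ TT N * ((N : ℝ) / 2 - Real.exp (9 / 10 * L)) :=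
      mul_le_mul h2 h1 (by positivity) (by positivity)
    refine le_trans ?_ h3
    have h4 : 0 ≤ (N : ℝ) * L := by
      have : (0 : ℝ) ≤ L := by linarith
      positivity
    nlinarith

theorem pf_AS3 : T_AS3 := by
  refine ⟨⌈Real.exp (10 ^ 12)⌉₊, fun N hN => ?_⟩
  obtain ⟨hL, hNL⟩ := large N hN
  have hT := TT_le N hL
  have hT' := TT_ge N
  set L := Real.log N with hLd
  have hN10 : (10 : ℝ) ≤ N := by
    rw [hNL]
    have := Real.add_one_le_exp L
    linarith
  have h199 : (N : ℝ) ^ (199 / 200 : ℝ) = Real.exp (199 / 200 * L) := by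
    rw [hNL, ← Real.exp_mul]
    congr 1
    ring
  set y := (N : ℝ) * Real.exp (-(TT N : ℝ) / 60) with hy
  have hy0 : 0 ≤ y := by positivity
  have hy2 : y ≤ 2 * Real.exp (179 / 180 * L) := by
    have h1 : Real.exp (-(TT N : ℝ) / 60) ≤ Real.exp (-L / 180 + 1 / 60) :=
      Real.exp_le_exp.2 (by linarith)
    have h2 : y ≤ N * Real.exp (-L / 180 + 1 / 60) :=
      mul_le_mul_of_nonneg_left h1 (by linarith)
    have h3 : (N : ℝ) * Real.exp (-L / 180 + 1 / 60) =
        Real.exp (1 / 60) * Real.exp (179 / 180 * L) := by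
      nth_rewrite 1 [hNL]
      rw [← Real.exp_add, ← Real.exp_add]
      congr 1
      ring
    have h4 : Real.exp (1 / 60) ≤ 2 := by
      have h5 : Real.exp (1 / 60) ≤ Real.exp 1 := Real.exp_le_exp.2 (by norm_num)
      have h6 := Real.exp_bound_div_one_sub_of_interval (x := 1 / 60) (by norm_num) (by norm_num)
      refine h6.trans ?_
      norm_num
    rw [h3] at h2
    refine h2.trans ?_
    exact mul_le_mul_of_nonneg_right h4 (Real.exp_pos _).le
  have hM : ((2 * N : ℕ) : ℝ) + 2 ≤ Real.exp (2 * L) := by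
    have h1 : Real.exp (2 * L) = N * N := by
      nth_rewrite 1 [hNL]
      nth_rewrite 1 [hNL]
      rw [← Real.exp_add]
      congr 1
      ring
    rw [h1]
    push_cast
    nlinarith
  have hM0 : (0 : ℝ) < ((2 * N : ℕ) : ℝ) + 2 := by positivity
  have h1 : (((2 * N : ℕ) : ℝ) + 2) ^ (2 * y) ≤ Real.exp (2 * L * (2 * y)) := by
    rw [Real.exp_mul]
    exact Real.rpow_le_rpow hM0.le hM (by positivity)
  have h2 : (2 : ℝ) ≤ Real.exp 1 := by
    have := Real.add_one_le_exp (1 : ℝ)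
    linarith
  rw [h199]
  calc 2 * (((2 * N : ℕ) : ℝ) + 2) ^ (2 * y)
      ≤ Real.exp 1 * Real.exp (2 * L * (2 * y)) :=
        mul_le_mul h2 h1 (by positivity) (Real.exp_pos _).le
    _ = Real.exp (1 + 2 * L * (2 * y)) := by rw [Real.exp_add]
    _ ≤ Real.exp (Real.exp (199 / 200 * L)) := by
      apply Real.exp_le_exp.2
      have h3 : 9 * L ≤ Real.exp (L / 1800) :=
        quad 1800 L (by norm_num) (by linarith) (by linarith) _ (by linarith)
      have h4 : Real.exp (199 / 200 * L) = Real.exp (L / 1800) * Real.exp (179 / 180 * L) := by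
        rw [← Real.exp_add]
        congr 1
        ring
      have h5 : 1 ≤ Real.exp (179 / 180 * L) := Real.one_le_exp (by linarith)
      rw [h4]
      have h6 : 2 * L * (2 * y) ≤ 8 * L * Real.exp (179 / 180 * L) := by
        have hL0 : 0 ≤ 4 * L := by linarith
        calc 2 * L * (2 * y) = 4 * L * y := by ring
          _ ≤ 4 * L * (2 * Real.exp (179 / 180 * L)) := mul_le_mul_of_nonneg_left hy2 hL0
          _ = _ := by ring
      have h7 : 9 * L * Real.exp (179 / 180 * L) ≤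
          Real.exp (L / 1800) * Real.exp (179 / 180 * L) :=
        mul_le_mul_of_nonneg_right h3 (by linarith)
      have h8 : 1 ≤ L * Real.exp (179 / 180 * L) := by nlinarith
      nlinarith

end Pool.Agent.H66.RW
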