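import Pool.Agent.H75.RW.Targets

/-!
# Row VAR of rwd_modules: the variance of sums over the letters
-/

set_option autoImplicit false

open List Pool.Agent.H68.TG Pool.Agent.H75.RW

namespace Pool.Agent.H66.RW

private theorem SS_shift (t : ℕ) (F : V t → Fin 3 → ℝ) (M : ℝ) (x : List (Fin 3)) : ∀ σ,
    SS t (fun s c => F s c - M) σ x = SS t F σ x - x.length * M := by
  induction x with
  | nil => intro σ; simp [SS]
  | cons c x ih =>
    intro σ
    simp only [SS, ih, List.length_cons]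
    push_cast
    ring

private theorem U_succ (t n : ℕ) (F : V t → Fin 3 → ℝ) (σ : V t) :
    avg (n + 1) (SS t F σ) =
      (∑ c, F σ c) / 3 + P t (fun s => avg n (SS t F s)) σ := by
  simp only [avg, P]
  have h : ∀ c : Fin 3, avg n (fun x => SS t F σ (c :: x)) =
      F σ c + avg n (SS t F (ms t (img c) σ)) := by
    intro c
    have e : (fun x => SS t F σ (c :: x)) =
        fun x => F σ c + SS t F (ms t (img c) σ) x := by
      funext x; rfl
    rw [e, avg_add, avg_const]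
  rw [h, h, h, Fin.sum_univ_three]
  ring

private theorem P_sum (t n : ℕ) (g : ℕ → V t → ℝ) (σ : V t) :
    P t (fun s => ∑ j ∈ Finset.range n, g j s) σ = ∑ j ∈ Finset.range n, P t (g j) σ := by
  simp only [P]
  rw [← Finset.sum_div, Finset.sum_add_distrib, Finset.sum_add_distrib]

private theorem U_eq (t : ℕ) (F : V t → Fin 3 → ℝ) (n : ℕ) : ∀ σ : V t,
    avg n (SS t F σ) =
      ∑ j ∈ Finset.range n, ((P t)^[j] (fun s => (∑ c, F s c) / 3)) σ := by
  induction n with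
  | zero => intro σ; simp [avg, SS]
  | succ n ih =>
    intro σ
    rw [U_succ, Finset.sum_range_succ']
    have e : (fun s => avg n (SS t F s)) = fun s =>
        ∑ j ∈ Finset.range n, ((P t)^[j] (fun s => (∑ c, F s c) / 3)) s := by
      funext s; exact ih s
    rw [e, P_sum, add_comm]
    congr 1
    refine Finset.sum_congr rfl fun j _ => ?_
    rw [Function.iterate_succ_apply']

private theorem step_c (t n : ℕ) (F : V t → Fin 3 → ℝ) (B : ℝ) (hB : 0 < B) (c : Fin 3) :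
    ∑ σ, avg n (fun x => SS t F σ (c :: x) ^ 2) ≤
      (1 + B) * ∑ σ, F σ c ^ 2 + (∑ σ, avg n (SS t F σ) ^ 2) / B +
        ∑ σ, avg n (fun x => SS t F σ x ^ 2) := by
  have h1 : ∀ σ : V t, avg n (fun x => SS t F σ (c :: x) ^ 2) =
      F σ c ^ 2 + 2 * F σ c * avg n (SS t F (ms t (img c) σ)) +
        avg n (fun x => SS t F (ms t (img c) σ) x ^ 2) := by
    intro σ
    have e : (fun x => SS t F σ (c :: x) ^ 2) = fun x =>
        (F σ c ^ 2 + 2 * F σ c * SS t F (ms t (img c) σ) x) +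
          SS t F (ms t (img c) σ) x ^ 2 := by
      funext x
      simp only [SS]
      ring
    rw [e, avg_add, avg_add, avg_const, avg_mul]
  have h2 : ∀ σ : V t, avg n (fun x => SS t F σ (c :: x) ^ 2) ≤
      (1 + B) * F σ c ^ 2 + avg n (SS t F (ms t (img c) σ)) ^ 2 / B +
        avg n (fun x => SS t F (ms t (img c) σ) x ^ 2) := by
    intro σ
    rw [h1 σ]
    have h3 : 2 * F σ c * avg n (SS t F (ms t (img c) σ)) ≤
        B * F σ c ^ 2 + avg n (SS t F (ms t (img c) σ)) ^ 2 / B := by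
      have h4 : B * F σ c ^ 2 + avg n (SS t F (ms t (img c) σ)) ^ 2 / B -
          2 * F σ c * avg n (SS t F (ms t (img c) σ)) =
          (B * F σ c - avg n (SS t F (ms t (img c) σ))) ^ 2 / B := by
        field_simp
        ring
      have h5 : 0 ≤ (B * F σ c - avg n (SS t F (ms t (img c) σ))) ^ 2 / B := by positivity
      linarith
    linarith
  calc ∑ σ, avg n (fun x => SS t F σ (c :: x) ^ 2)
      ≤ ∑ σ, ((1 + B) * F σ c ^ 2 + avg n (SS t F (ms t (img c) σ)) ^ 2 / B +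
        avg n (fun x => SS t F (ms t (img c) σ) x ^ 2)) := Finset.sum_le_sum fun σ _ => h2 σ
    _ = (1 + B) * ∑ σ, F σ c ^ 2 + (∑ σ, avg n (SS t F (ms t (img c) σ)) ^ 2) / B +
        ∑ σ, avg n (fun x => SS t F (ms t (img c) σ) x ^ 2) := by
      rw [Finset.sum_add_distrib, Finset.sum_add_distrib, Finset.mul_sum, Finset.sum_div]
    _ = _ := by
      rw [sum_ms t (img c) (fun σ => avg n (SS t F σ) ^ 2),
        sum_ms t (img c) (fun σ => avg n (fun x => SS t F σ x ^ 2))]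

private theorem Z_bound (hSMP : T_SMP) (t n : ℕ) (F : V (t + 2) → Fin 3 → ℝ)
    (h0 : ∑ σ, ∑ c, F σ c = 0) :
    ∑ σ, avg n (fun x => SS (t + 2) F σ x ^ 2) ≤
      20000 * (9 / 2) ^ (t + 2) * n * (∑ σ, ∑ c, F σ c ^ 2) / 3 := by
  set X : ℝ := (9 / 2) ^ (t + 2) with hX
  have hX1 : 1 ≤ X := one_le_pow₀ (by norm_num)
  set B : ℝ := 7000 * X with hBd
  have hB : 0 < B := by positivity
  set S : ℝ := ∑ σ, ∑ c, F σ c ^ 2 with hS
  have hS0 : 0 ≤ S := Finset.sum_nonneg fun σ _ => Finset.sum_nonneg fun c _ => sq_nonneg _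
  have hG2 : ∑ σ, ((∑ c, F σ c) / 3) ^ 2 ≤ S / 3 := by
    rw [hS, Finset.sum_div]
    refine Finset.sum_le_sum fun σ _ => ?_
    rw [Fin.sum_univ_three, Fin.sum_univ_three]
    nlinarith [sq_nonneg (F σ 0 - F σ 1), sq_nonneg (F σ 1 - F σ 2), sq_nonneg (F σ 0 - F σ 2)]
  have hG0 : ∑ σ, (∑ c, F σ c) / 3 = 0 := by
    rw [← Finset.sum_div, h0, zero_div]
  have hU : ∀ n : ℕ, ∑ σ, avg n (SS (t + 2) F σ) ^ 2 ≤ B ^ 2 * (S / 3) := by
    intro n
    have h1 := hSMP t n (fun s => (∑ c, F s c) / 3) hG0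
    have h2 : ∑ σ, avg n (SS (t + 2) F σ) ^ 2 = ∑ σ, (∑ j ∈ Finset.range n,
        ((P (t + 2))^[j] (fun s => (∑ c, F s c) / 3)) σ) ^ 2 :=
      Finset.sum_congr rfl fun σ _ => by rw [U_eq]
    rw [h2]
    refine h1.trans ?_
    exact mul_le_mul_of_nonneg_left hG2 (sq_nonneg _)
  induction n with
  | zero => simp [avg, SS]
  | succ n ih =>
    have hz : ∑ σ, avg (n + 1) (fun x => SS (t + 2) F σ x ^ 2) =
        (∑ σ, avg n (fun x => SS (t + 2) F σ (0 :: x) ^ 2) +
          ∑ σ, avg n (fun x => SS (t + 2) F σ (1 :: x) ^ 2) +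
          ∑ σ, avg n (fun x => SS (t + 2) F σ (2 :: x) ^ 2)) / 3 := by
      simp only [avg]
      rw [← Finset.sum_div, Finset.sum_add_distrib, Finset.sum_add_distrib]
    have hs : S = ∑ σ, F σ 0 ^ 2 + ∑ σ, F σ 1 ^ 2 + ∑ σ, F σ 2 ^ 2 := by
      rw [hS, ← Finset.sum_add_distrib, ← Finset.sum_add_distrib]
      exact Finset.sum_congr rfl fun σ _ => by rw [Fin.sum_univ_three]
    have h00 := step_c (t + 2) n F B hB 0
    have h01 := step_c (t + 2) n F B hB 1
    have h02 := step_c (t + 2) n F B hB 2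
    have hUn := hU n
    have hUB : (∑ σ, avg n (SS (t + 2) F σ) ^ 2) / B ≤ B * (S / 3) := by
      rw [div_le_iff₀ hB]
      calc _ ≤ _ := hUn
        _ = _ := by ring
    rw [hz]
    have hfin : (1 + 2 * B) * S ≤ 20000 * X * S := by
      refine mul_le_mul_of_nonneg_right ?_ hS0
      rw [hBd]
      linarith
    push_cast
    rw [div_le_iff₀ (by norm_num : (0 : ℝ) < 3)]
    have e1 : (1 + B) * S = (1 + B) * ∑ σ, F σ 0 ^ 2 + (1 + B) * ∑ σ, F σ 1 ^ 2 +
        (1 + B) * ∑ σ, F σ 2 ^ 2 := by rw [hs]; ring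
    have e2 : 20000 * X * ((n : ℝ) + 1) * S / 3 * 3 =
        3 * (20000 * X * n * S / 3) + 20000 * X * S := by ring
    rw [e2]
    have e3 : (1 + 2 * B) * S = (1 + B) * S + 3 * (B * (S / 3)) := by ring
    linarith

theorem pf_VAR (hSMP : T_SMP) : T_VAR := by
  intro t n F M hM
  have hc : Fintype.card (V (t + 2)) = 2 ^ (t + 2) := cardV (t + 2)
  have hcr : ((Finset.univ : Finset (V (t + 2))).card : ℝ) = 2 ^ (t + 2) := by
    rw [Finset.card_univ, hc]; push_cast; ring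
  have h0 : ∑ σ, ∑ c, (F σ c - M) = 0 := by
    have e : ∀ σ : V (t + 2), ∑ c, (F σ c - M) = ∑ c, F σ c - 3 * M := by
      intro σ
      rw [Finset.sum_sub_distrib]
      simp
    rw [Finset.sum_congr rfl fun σ _ => e σ, Finset.sum_sub_distrib, hM, Finset.sum_const,
      nsmul_eq_mul, hcr]
    ring
  have h1 := Z_bound hSMP t n (fun s c => F s c - M) h0
  have h2 : ∑ σ, ∑ c, (F σ c - M) ^ 2 ≤ ∑ σ, ∑ c, F σ c ^ 2 := by
    have e : ∀ σ : V (t + 2), ∑ c, (F σ c - M) ^ 2 =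
        ∑ c, F σ c ^ 2 - 2 * M * ∑ c, F σ c + 3 * M ^ 2 := by
      intro σ
      rw [Fin.sum_univ_three, Fin.sum_univ_three, Fin.sum_univ_three]
      ring
    rw [Finset.sum_congr rfl fun σ _ => e σ, Finset.sum_add_distrib, Finset.sum_sub_distrib,
      ← Finset.mul_sum, hM, Finset.sum_const, nsmul_eq_mul, hcr]
    have h3 : (0 : ℝ) ≤ 3 * 2 ^ (t + 2) * M ^ 2 := by positivity
    nlinarith
  have h3 : ∑ σ, avg n (fun x => (SS (t + 2) F σ x - n * M) ^ 2) =
      ∑ σ, avg n (fun x => SS (t + 2) (fun s c => F s c - M) σ x ^ 2) := by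
    refine Finset.sum_congr rfl fun σ _ => ?_
    refine avg_congr n _ _ fun x hx => ?_
    rw [SS_shift, hx]
  rw [h3]
  refine h1.trans ?_
  have h4 : (0 : ℝ) ≤ 20000 * (9 / 2) ^ (t + 2) * n := by positivity
  have h5 := mul_le_mul_of_nonneg_left h2 h4
  linarith

end Pool.Agent.H66.RW
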